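import Pool.Agent.D3fc.Final

/-!
# Global attractivity for `x_{n+1} = x_{n-2} / (C x_{n-1} + x_{n-2})`, `1 < C ≤ 7/5`

With `y_n = 1 / x_n` the equation is `y_{n+1} = 1 + C y_{n-2} / y_{n-1}`. All solutions are bounded;
for the upper and lower limits `S`, `I` there are limiting windows of length eight inside `[I, S]`
ending in `S` and in `I`. They give two polynomial inequalities between `I` and `S` which force
`I = S = 1 + C` for `1 < C ≤ 7/5`.
-/

set_option autoImplicit false

namespace Pool.Agent.Results.MP_d3fc00_an.AttractSevenFifths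

open Filter Topology

/-- The indices are shifted by two: `x 0, x 1, x 2` are the initial values `x_{-2}, x_{-1}, x_0`. -/
theorem result (C : ℝ) (hC : 1 < C) (hC' : C ≤ 7 / 5) (x : ℕ → ℝ)
    (h0 : 0 < x 0) (h1 : 0 < x 1) (h2 : 0 < x 2)
    (hrec : ∀ n, x (n + 3) = x n / (C * x (n + 1) + x n)) :
    Tendsto x atTop (𝓝 (1 / (C + 1))) :=
  D3fc.main hC hC' x h0 h1 h2 hrec

end Pool.Agent.Results.MP_d3fc00_an.AttractSevenFifths
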